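import Pool.Agent.H317Z.QMMain

set_option autoImplicit false

namespace Pool.Agent.Results.MP_9a65c4_lc.Separation

open Pool.Agent.H317Z.QM

/-- There is a set of quasi-minimal enumeration degree that computes a non-computable continuous
functional on Baire space, so that its degree is not quasi-minimal for the space of functionals. -/
theorem result : ∃ A : Set ℕ, QuasiMin NameBaire A ∧
    ∃ Φ : C(ℕ → ℕ, ℕ), ¬ CompPt NameFun Φ ∧ LeT NameFun NameSet Φ A :=
  main

end Pool.Agent.Results.MP_9a65c4_lc.Separation
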